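import Pool.Agent.Q140.DIC.Main

set_option autoImplicit false

/-!
# A dichotomy for equations between matrices

Definitions: `LF`, `LF.val`, `NTree`, `NTree.Acc`, `NTree.Accepts` are in
`Pool.Agent.W966.Vg.Defs`; `Det`, `cost` in `Pool.Agent.Q140.EQN.Cm`; `mat` in
`Pool.Agent.Q140.HYP.Trace`; `Sol` in `Pool.Agent.Q140.DIC.Line`; `AffineSol` in
`Pool.Agent.Q140.DIC.Main`; `expo` in `Pool.Agent.Q140.LIN.Expo`; `rk`, `omega` in
`Pool.Agent.H515R2.MMR.Rank`.

Let `F` be a finite system of equations `F_1 = … = F_s = 0` between noncommutative polynomials in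
`m` variables, with coefficients in the field `K` (for example the defining relations of a finitely
presented algebra). The input is an `m`-tuple of `N × N` matrices (`mat x`), the question is whether
the matrices satisfy the equations (`Sol F (mat x)`), i.e. define a representation of the algebra.
The algorithms are algebraic computation trees with branching according to equality tests; only
multiplications and divisions are counted.

1. If, for every `N`, the set of the solutions in `N × N` matrices is empty or an affine subspace
   (`AffineSol F`), then no multiplications and divisions are needed (characteristic not two).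
2. In all other cases the problem is as hard as matrix multiplication, even for nondeterministic
   trees which guess elements of the field (`K` algebraically closed of characteristic zero): for
   some `k, d > 0`, every tree for matrices of size `k N` with `L` multiplications and divisions
   satisfies `n ^ ω ≤ 2 L` for all `n > 0` with `d n ≤ N`.
3. Over `ℂ` there always are deterministic trees with `C R(N)` multiplications, where `R(N)` is the
   rank of `N × N` matrix multiplication, and in the second case the exponent is exactly `ω`.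
-/

namespace Pool.Agent.Results.MP_e72dc0_lc.EquationsDichotomy

open Pool.Agent.W966.Vg Pool.Agent.H515R2.MMR Pool.Agent.Q140.HYP Pool.Agent.Q140.LIN
  Pool.Agent.Q140.EQN Pool.Agent.Q140.DIC

theorem result :
    (∀ (K : Type) [Field K], (2 : K) ≠ 0 → ∀ (m s : ℕ) (F : Fin s → FreeAlgebra K (Fin m)),
      AffineSol F → ∀ N : ℕ, ∃ T : NTree K (Fin m × Fin N × Fin N),
        Det T ∧ cost T = 0 ∧ ∀ x, T.Accepts x 0 ↔ Sol F (mat x)) ∧
    (∀ (K : Type) [Field K] [IsAlgClosed K] [CharZero K] (m s : ℕ)
      (F : Fin s → FreeAlgebra K (Fin m)), ¬ AffineSol F → ∃ k d : ℕ, 0 < k ∧ 0 < d ∧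
        ∀ n N : ℕ, 0 < n → d * n ≤ N →
          ∀ (T : NTree K (Fin m × Fin (k * N) × Fin (k * N))) (L : ℕ),
            (∀ x, T.Accepts x L ↔ Sol F (mat x)) → (n : ℝ) ^ omega ≤ 2 * L) ∧
    (∀ (m s : ℕ) (F : Fin s → FreeAlgebra ℂ (Fin m)),
      (∃ C : ℕ, ∀ N : ℕ, ∃ T : NTree ℂ (Fin m × Fin N × Fin N),
        Det T ∧ cost T = C * rk N ∧ ∀ x, T.Accepts x (C * rk N) ↔ Sol F (mat x)) ∧
      (¬ AffineSol F →
        expo (κ := fun N => Fin m × Fin N × Fin N) (fun _ => {x | Sol F (mat x)}) = omega)) :=
  ⟨fun _ _ h2 _ _ F h N => affine_case h2 F h N, fun _ _ _ _ _ _ F h => hard_case F h,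
    fun _ _ F => ⟨sol_upper F, sol_expo F⟩⟩

end Pool.Agent.Results.MP_e72dc0_lc.EquationsDichotomy
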