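import Pool.Agent.Y624.MixTight

set_option autoImplicit false

/-!
# Fast matrix multiplication reads many entries of other rows

Circuits in which linear combinations are free (`Circ`), `Multiplies`, `Used`, `Reads` and
`rowsRead` are defined in `Pool.Agent.Y624.MixDefs`; `Vars m` (the entries of two generic
`m × m` matrices `A`, `B`) in `Pool.Agent.H88R3.MM.Circ`.

For two different rows `i`, `i'` consider the pairs `(j, k)` such that some product of the circuit
is used for the entry `(i, j)` of `A B` and reads the entry `(i', k)` of `A`, which has nothing to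
do with row `i` of `A B`. Let `foreign C out i i'` be the least number of indices `j` and `k`
which meet all these pairs (a vertex cover; by König's theorem it is also the maximal number of such
pairs without common `j` or `k`).

1. `m ^ 5 ≤ 4 N (m ^ 2 + 2 ∑ foreign C out i i')` for every circuit with `N` products which
   multiplies two `m × m` matrices over a field; the sum is over all `i ≠ i'`. If the number
   `foreign C out i i'` is `ν` on the average, then `N ≥ m ^ 3 / (4 + 8 ν)`.
2. If for every `i` entries of at most `κ` rows of `A` are read for row `i` of `A B`, then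
   `m ^ 3 ≤ 4 N (1 + 2 κ)`.
3. Part 2, hence part 1, is tight up to a constant factor: for `κ ^ (d + 8) ≤ m` and large `m` there
   are circuits with at most `(1 + 11 / d) m ^ 3 / κ` products such that for every `i` entries of at
   most `κ` rows of `A` are read for row `i` of `A B`.
-/

namespace Pool.Agent.Results.MP_e72dc0_lc.ForeignReads

open Finset Pool.Agent.Y624.Mix Pool.Agent.H88R3.MM Pool.Agent.W329.AR

section

variable {F : Type*} [Field F] {m N : ℕ}

/-- The least size `|X| + |Y|` of sets `X`, `Y` of indices such that, whenever a product which is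
used for the entry `(i, j)` of `A B` reads the entry `(i', k)` of `A`, then `j ∈ X` or `k ∈ Y`. -/
noncomputable def foreign (C : Circ F (Vars m) N) (out : Fin m → Fin m → Form F (Vars m) N)
    (i i' : Fin m) : ℕ :=
  sInf {c : ℕ | ∃ X Y : Finset (Fin m), X.card + Y.card = c ∧
    ∀ j k t, C.Used t (out i j) → C.Reads t (Sum.inl (i', k)) → j ∈ X ∨ k ∈ Y}

theorem foreign_spec (C : Circ F (Vars m) N) (out : Fin m → Fin m → Form F (Vars m) N)
    (i i' : Fin m) : ∃ X Y : Finset (Fin m), X.card + Y.card = foreign C out i i' ∧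
      ∀ j k t, C.Used t (out i j) → C.Reads t (Sum.inl (i', k)) → j ∈ X ∨ k ∈ Y :=
  Nat.sInf_mem (s := {c : ℕ | ∃ X Y : Finset (Fin m), X.card + Y.card = c ∧
    ∀ j k t, C.Used t (out i j) → C.Reads t (Sum.inl (i', k)) → j ∈ X ∨ k ∈ Y})
    ⟨_, univ, ∅, rfl, fun j _ _ _ _ => Or.inl (mem_univ j)⟩

theorem foreign_le (C : Circ F (Vars m) N) (out : Fin m → Fin m → Form F (Vars m) N)
    (i i' : Fin m) : foreign C out i i' ≤ if i' ∈ rowsRead C out i then m else 0 := by
  classical
  split_ifs with h
  · refine Nat.sInf_le ⟨univ, ∅, ?_, fun j _ _ _ _ => Or.inl (mem_univ j)⟩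
    rw [card_univ, Fintype.card_fin, card_empty, add_zero]
  · refine Nat.sInf_le ⟨∅, ∅, rfl, fun j k t h1 h2 => ?_⟩
    refine absurd ?_ h
    unfold rowsRead
    exact mem_filter.2 ⟨mem_univ _, j, t, k, h1, h2⟩

theorem lower (C : Circ F (Vars m) N) (out : Fin m → Fin m → Form F (Vars m) N)
    (hC : Multiplies C out) : m ^ 5 ≤ 4 * N *
      (m ^ 2 + 2 * ∑ i, ∑ i', if i ≠ i' then foreign C out i i' else 0) := by
  choose X Y h1 h2 using foreign_spec C out
  have h3 := foreign_bound C out hC X Y fun i j i' k t _ hu hr => h2 i i' j k t hu hr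
  simpa only [h1] using h3

theorem lower_rows (C : Circ F (Vars m) N) (out : Fin m → Fin m → Form F (Vars m) N)
    (hC : Multiplies C out) {κ : ℕ} (hκ : ∀ i, (rowsRead C out i).card ≤ κ) :
    m ^ 3 ≤ 4 * N * (1 + 2 * κ) := by
  rcases Nat.eq_zero_or_pos m with rfl | hm
  · simp
  have h1 : ∑ i : Fin m, ∑ i' : Fin m, (if i ≠ i' then foreign C out i i' else 0) ≤
      m ^ 2 * κ := by
    calc ∑ i : Fin m, ∑ i' : Fin m, (if i ≠ i' then foreign C out i i' else 0)
        ≤ ∑ i : Fin m, ∑ i' : Fin m, (if i' ∈ rowsRead C out i then m else 0) := by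
          refine sum_le_sum fun i _ => sum_le_sum fun i' _ => ?_
          split_ifs with h2 h3 h3
          · exact (foreign_le C out i i').trans (by rw [if_pos h3])
          · exact (foreign_le C out i i').trans (by rw [if_neg h3])
          · exact Nat.zero_le _
          · exact le_rfl
      _ = ∑ i : Fin m, (rowsRead C out i).card * m := by
          refine sum_congr rfl fun i _ => ?_
          rw [← sum_filter, filter_univ_mem, sum_const, smul_eq_mul]
      _ ≤ ∑ _i : Fin m, κ * m := sum_le_sum fun i _ => Nat.mul_le_mul_right _ (hκ i)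
      _ = m ^ 2 * κ := by rw [sum_const, card_univ, Fintype.card_fin, smul_eq_mul]; ring
  have h2 := lower C out hC
  have h3 : m ^ 2 * m ^ 3 ≤ m ^ 2 * (4 * N * (1 + 2 * κ)) := by
    calc m ^ 2 * m ^ 3 = m ^ 5 := by ring
      _ ≤ _ := h2
      _ ≤ 4 * N * (m ^ 2 + 2 * (m ^ 2 * κ)) := by gcongr
      _ = _ := by ring
  exact Nat.le_of_mul_le_mul_left h3 (by positivity)

end

theorem result.{u} :
    (∀ (F : Type u) [Field F] (m N : ℕ) (C : Circ F (Vars m) N)
      (out : Fin m → Fin m → Form F (Vars m) N), Multiplies C out →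
        m ^ 5 ≤ 4 * N * (m ^ 2 + 2 * ∑ i, ∑ i', if i ≠ i' then foreign C out i i' else 0) ∧
        ∀ κ : ℕ, (∀ i, (rowsRead C out i).card ≤ κ) → m ^ 3 ≤ 4 * N * (1 + 2 * κ)) ∧
    (∀ d : ℕ, 2 ≤ d → ∃ m₀ : ℕ, ∀ m ≥ m₀, ∀ κ : ℕ, 1 ≤ κ → κ ^ (d + 8) ≤ m →
      ∀ (F : Type u) [Field F], ∃ (N : ℕ) (C : Circ F (Vars m) N)
        (out : Fin m → Fin m → Form F (Vars m) N), Multiplies C out ∧
          d * (N * κ) ≤ (d + 11) * m ^ 3 ∧ ∀ i, (rowsRead C out i).card ≤ κ) := by
  refine ⟨fun F _ m N C out hC => ⟨lower C out hC, fun κ hκ => lower_rows C out hC hκ⟩,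
    fun d hd => ?_⟩
  obtain ⟨m₀, h⟩ := exists_rect.{u} d hd
  refine ⟨m₀, fun m hm κ h1 h2 F _ => ?_⟩
  obtain ⟨h3, r, hr, hMR⟩ := h m hm κ h1 h2
  obtain ⟨C, out, hC, -, ht⟩ := rows_up h1 (hMR F)
  exact ⟨_, C, out, hC, numeric hr h3, ht⟩

end Pool.Agent.Results.MP_e72dc0_lc.ForeignReads
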