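import Pool.Agent.Y538.Fun.Final

set_option autoImplicit false

/-!
# Matrix multiplication by networks of arbitrary smooth gates with few inputs

Definitions: `Aff`, `IsNet`, `Pairs`, `Solves` are in `Pool.Agent.Y538.Net.Defs`; `mm`, `Free`,
`IsNetF`, `SolvesF` in `Pool.Agent.Y538.Fun.Defs`; `omega` in `Pool.Agent.H515R2.MMR.Rank`.

A gate applies an arbitrary twice continuously differentiable map `𝕜 ^ a → 𝕜 ^ b` (defined near the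
values that occur) to `a` linear combinations of the inputs and of earlier results. `Solves 𝕜 n a b L`:
countably many such networks with `L` gates solve together, for a nonmeagre set of pairs `(A, B)`,
the product `A B`. `SolvesF 𝕜 n a b L d Φ`: they compute only the `d` numbers `Φ (A B)`, and
everything which depends on `A` alone or on `B` alone is free.

1. `n ^ ω ≤ L (a min (a, b)) ^ (ω / 3)`, over every valued field which embeds into `ℂ` (real,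
   complex or `p`-adic numbers).
2. Hence the exponent of the number of gates, for every fixed `a ≥ 2` and `b ≥ 1`, is `ω`.
3. The bound for functions of the product, real or complex.
4. Computing `ε n ^ δ` numbers, `1 < δ ≤ 2`, takes `n ^ ((1 + δ) ω / 3 - o(1))` gates.
5. For linear functions with values in `ℝ ^ d`, `d ≥ ε n ^ 2`, the exponent is `ω`.
-/

namespace Pool.Agent.Results.MP_e72dc0_lc.SmoothGates

open Filter Pool.Agent.Y538.Net Pool.Agent.Y538.Fun Pool.Agent.H515R2.MMR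

theorem result :
    (∀ (𝕜 : Type) [NontriviallyNormedField 𝕜] (_ : 𝕜 →+* ℂ) (n a b L : ℕ), 1 ≤ n →
      Solves 𝕜 n a b L → (n : ℝ) ^ omega ≤ L * ((a * min a b : ℕ) : ℝ) ^ (omega / 3)) ∧
    (∀ a b : ℕ, 2 ≤ a → 1 ≤ b →
      sInf {τ : ℝ | ∃ C : ℝ, ∀ n : ℕ, ∃ L : ℕ, Solves ℝ n a b L ∧ (L : ℝ) ≤ C * (n : ℝ) ^ τ} =
        omega) ∧
    (∀ (𝕜 : Type) [RCLike 𝕜] (_ : 𝕜 →+* ℂ) (n a b L d : ℕ)
      (Φ : (Fin n → Fin n → 𝕜) → Fin d → 𝕜), SolvesF 𝕜 n a b L d Φ →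
      ((n * (d - n) : ℕ) : ℝ) ^ (omega / 3) ≤
        2 * L * ((4 * (a * min a b) : ℕ) : ℝ) ^ (omega / 3)) ∧
    (∀ (𝕜 : Type) [RCLike 𝕜] (_ : 𝕜 →+* ℂ) (a b : ℕ) (ε δ τ : ℝ), 0 < ε → 1 < δ →
      (∀ N : ℕ, ∃ n : ℕ, N ≤ n ∧ ∃ (d L : ℕ) (Φ : (Fin n → Fin n → 𝕜) → Fin d → 𝕜),
        SolvesF 𝕜 n a b L d Φ ∧ ε * (n : ℝ) ^ δ ≤ d ∧ (L : ℝ) ≤ (n : ℝ) ^ τ) →
      (1 + δ) * omega / 3 ≤ τ) ∧
    (∀ a b : ℕ, 2 ≤ a → 1 ≤ b → ∀ ε : ℝ, 0 < ε → ∀ d : ℕ → ℕ,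
      (∀ᶠ n : ℕ in atTop, ε * (n : ℝ) ^ 2 ≤ d n) →
      ∀ ℓ : (n : ℕ) → (Fin n → Fin n → ℝ) →L[ℝ] (Fin (d n) → ℝ),
      (∀ n, Function.Surjective (ℓ n)) →
      sInf {τ : ℝ | ∃ C : ℝ, ∀ n : ℕ, ∃ L : ℕ, SolvesF ℝ n a b L (d n) (ℓ n) ∧
        (L : ℝ) ≤ C * (n : ℝ) ^ τ} = omega) :=
  ⟨fun _ _ σ _ _ _ _ hn h => Pool.Agent.Y538.Net.lower σ hn h,
    fun _ _ ha hb => Pool.Agent.Y538.Net.exponent ha hb,
    fun _ _ σ _ _ _ _ _ _ h => lowerF σ h,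
    fun _ _ σ _ _ _ _ _ hε hδ H => exponent_lower σ hε hδ H,
    fun _ _ ha hb _ hε d hd ℓ hℓ => exponent_linear ha hb hε d hd ℓ hℓ⟩

end Pool.Agent.Results.MP_e72dc0_lc.SmoothGates
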