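import Pool.Agent.Q140.HYP.Upper

set_option autoImplicit false

/-!
# Deciding whether `tr (A B C) = 0` is as hard as matrix multiplication, also nondeterministically

Definitions: `LF`, `LF.val`, `NTree`, `NTree.Acc`, `NTree.Accepts` are in
`Pool.Agent.W966.Vg.Defs`; `Rk3`, `pw`, `tens` in `Pool.Agent.Q140.HYP.Powers`; `Decides` in
`Pool.Agent.Q140.HYP.Main`; `mat`, `tr3`, `trc` in `Pool.Agent.Q140.HYP.Trace`; `ex` in
`Pool.Agent.Q140.HYP.Ranks`; `omega` in `Pool.Agent.H515R2.MMR.Rank`.

An `NTree K ι` is a nondeterministic algebraic computation tree over the algebraically closed field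
`K` of characteristic `0`: it multiplies and divides available linear combinations, branches
according to equality tests, makes nondeterministic choices, guesses elements of `K`, accepts and
rejects. `t.Accepts x L`: it can accept the input `x` with at most `L` multiplications and
divisions; everything else is free. `Decides t L f`: all zeros of `f` outside the zero set of some
polynomial `g`, relatively prime to `f`, are accepted, and all accepted points are zeros of some
polynomial `h ≠ 0`. In particular this holds if `t` accepts exactly the zeros of `f ≠ 0`.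

1. The polynomial `tr3` is `tr (A B C)`. If `Decides t L (tr3 K n)`, then `n ^ ω ≤ 54 L + 180`.
2. The polynomial `trc` is `tr (A ^ 3)`. If `Decides t L (trc K n)`, then `m ^ ω ≤ 54 L + 180` for
   all `m ≤ n / 3`.
3. The exponent of the nondeterministic decision of `tr (A B C) = 0` over `ℂ` is `ω`.
4. If `Decides t L f` for a polynomial `f ≠ 0` of degree at most `3`, then the `N`-th power of the
   trilinear part of `f`, with respect to any three disjoint sets of variables, has rank at most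
   `(N + 1) ^ s (54 L + 180) ^ N`, where `s` does not depend on `N`.
-/

namespace Pool.Agent.Results.MP_e72dc0_lc.TraceDecision

open MvPolynomial Pool.Agent.W966.Vg Pool.Agent.H515R2.MMR Pool.Agent.Q140.HYP

theorem result :
    (∀ (K : Type) [Field K] [IsAlgClosed K] [CharZero K] (ι : Type) [Fintype ι] (t : NTree K ι)
      (L : ℕ) (f : MvPolynomial ι K), f ≠ 0 → (∀ x, t.Accepts x L ↔ eval x f = 0) →
      Decides t L f) ∧
    (∀ (K : Type) [Field K] [IsAlgClosed K] [CharZero K] (n : ℕ),
      (∀ x : Fin 3 × Fin n × Fin n → K,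
        eval x (tr3 K n) = (mat x 0 * mat x 1 * mat x 2).trace) ∧
      (0 < n → ∀ (t : NTree K (Fin 3 × Fin n × Fin n)) (L : ℕ), Decides t L (tr3 K n) →
        (n : ℝ) ^ omega ≤ 54 * L + 180)) ∧
    (∀ (K : Type) [Field K] [IsAlgClosed K] [CharZero K] (n : ℕ),
      (∀ A : Matrix (Fin n) (Fin n) K, eval (fun p => A p.1 p.2) (trc K n) = (A ^ 3).trace) ∧
      (∀ m : ℕ, 0 < m → 3 * m ≤ n → ∀ (t : NTree K (Fin n × Fin n)) (L : ℕ),
        Decides t L (trc K n) → (m : ℝ) ^ omega ≤ 54 * L + 180)) ∧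
    (sInf {τ : ℝ | ∃ c : ℝ, ∀ n : ℕ, ∃ (L : ℕ) (t : NTree ℂ (Fin 3 × Fin n × Fin n)),
      (∀ x, t.Accepts x L ↔ eval x (tr3 ℂ n) = 0) ∧ (L : ℝ) ≤ c * (n : ℝ) ^ τ} = omega) ∧
    (∀ (K : Type) [Field K] [IsAlgClosed K] [CharZero K] (ι X Y Z : Type) [Fintype ι] [Fintype X]
      [Fintype Y] [Fintype Z] (t : NTree K ι) (L : ℕ) (f : MvPolynomial ι K), f ≠ 0 →
      f.totalDegree ≤ 3 → Decides t L f → ∀ (ix : X → ι) (iy : Y → ι) (iz : Z → ι),
      (∀ x y, ix x ≠ iy y) → (∀ y z, iy y ≠ iz z) → (∀ x z, ix x ≠ iz z) → ∀ N : ℕ,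
      Rk3 (pw N (tens ix iy iz fun _ => f))
        ((N + 1) ^ Fintype.card (X × Y × Z) * (54 * L + 180) ^ N)) :=
  ⟨fun _ _ _ _ _ _ _ _ _ hf h => decides_of_exact hf h,
    fun _ _ _ _ _ => ⟨eval_tr3, fun hn t L H => tr3_lower hn t L H⟩,
    fun _ _ _ _ _ => ⟨eval_trc, fun _ hm hmn t L H => trc_lower hm hmn t L H⟩,
    exponent_tr3,
    fun _ _ _ _ _ _ _ _ _ _ _ _ t L f hf0 hd H ix iy iz hxy hyz hxz N =>
      cubic_pow t L f hf0 hd H ix iy iz hxy hyz hxz N⟩

end Pool.Agent.Results.MP_e72dc0_lc.TraceDecision
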